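import Pool.Agent.H918.E.Rf
import Pool.Agent.H918.E.Covg
import Pool.Agent.H918.E.Lfg

/-! Task SE-REG: regular relative forms on matrices. -/

set_option autoImplicit false

open Filter Topology Metric Set LinearAlgebra.Projectivization

namespace Pool.Agent.H918.SS

open FF Pool.Agent.Y190.OP Pool.Agent.W602.GT Pool.Agent.N154.GG
open Pool.Agent.N155 (TX isCompact_TX TX_PM exists_shift nz nz_Phi)

variable {m n : ℕ} {ι ι' : Type} {F : ι → MvPolynomial (Fin (n + 1)) ℂ}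
  {F' : ι' → MvPolynomial (Fin (m + 1)) ℂ} {L : PeriodPair}
  {α : (Fin (n + 1) → ℂ) → ℂ ⧸ L.lattice} {α' : (Fin (m + 1) → ℂ) → ℂ ⧸ L.lattice}
  {Q : Fin (n + 1) → MvPolynomial (Fin (m + 1)) ℂ} {κ : Type}
  {η : κ → (Fin (m + 1) → ℂ) → (Fin (m + 1) → ℂ) → ℂ} {B : Set (ℂ ⧸ L.lattice)}

/-- SE-REG. -/
theorem reg_of {d : ℕ} (hF' : ∀ i, IsForm (F' i)) (hα' : HolToTorus (Cone F') L α')
    (hsm : ∀ x ∈ Cone F', α' x ∉ B → SmoothFamilyAt (Cone F') L α' d x) {b0 : ℂ}
    (hreg : ∀ x₀ ∈ Cone F', α' x₀ = Submodule.Quotient.mk b0 → RegularFormsAt (Cone F') α' B η x₀)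
    {x0 : Mat (m + 1)} (hx0 : x0 ∈ TF F') (h0 : aM L α' F' x0 - b0 ∈ La L) :
    RegF (TF F') (La L) (aM L α' F') (BB L B) η x0 := by
  obtain ⟨i, hi⟩ := PM.exists_diag (TF_PM hx0)
  have hαx0 : α' (chart i x0) = Submodule.Quotient.mk b0 := by
    rw [← aM_chartF hF' hα' hx0 hi]
    exact mem_La_iff.1 h0
  obtain ⟨r, u, V, H, hV, hMV, hu, hH, hH0, hform⟩ := hreg _ (chart_coneF hF' hx0 hi) hαx0
  -- Lipschitz functions
  have hC : ∀ j, ContDiffAt ℝ 1 (fun M : Mat (m + 1) => u j (chart i M)) x0 := by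
    intro j
    have h3 : ContDiffAt ℝ 1 (u j) (chart i x0) :=
      (((hu j) _ hMV).contDiffAt (n := 1)).restrict_scalars ℝ
    exact h3.comp x0 (contDiffAt_chart hi)
  choose K s hs hK using fun j => (hC j).exists_lipschitzOnWith
  have h2 : ∀ᶠ M : Mat (m + 1) in 𝓝 x0, (M i i ≠ 0 ∧ chart i M ∈ V) ∧ ∀ j, M ∈ s j :=
    (((continuous_apply_apply i i).continuousAt.eventually_ne hi).and
      ((continuousAt_chart hi).eventually (hV.mem_nhds hMV))).and
      (eventually_all.2 hs)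
  obtain ⟨O, hOs, hO, hMO⟩ := _root_.mem_nhds_iff.1 h2
  refine ⟨i, O, r, fun j M => u j (chart i M), V, H, ∑ j, (K j : ℝ), hO, hMO,
    fun x hx => (hOs hx).1, hV, by positivity, hH, hH0, fun j => ⟨?_, ?_, ?_⟩, ?_⟩
  · intro M hM
    exact (ContinuousAt.comp (g := u j) ((hu j) _ (hOs hM).1.2).continuousAt
      (continuousAt_chart (hOs hM).1.1)).continuousWithinAt
  · intro U Q t _ ht hQ hQO
    have h3 := hQ.diff_chart ht (hOs hQO).1.1
    exact (((hu j) _ (hOs hQO).1.2).differentiableAt).comp t h3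
  · intro x hx x' hx'
    have h3 := (hK j).dist_le_mul x ((hOs hx).2 j) x' ((hOs hx').2 j)
    rw [dist_eq_norm, dist_eq_norm] at h3
    refine h3.trans (mul_le_mul_of_nonneg_right ?_ (norm_nonneg _))
    exact Finset.single_le_sum (f := fun j => (K j : ℝ)) (fun j _ => (K j).2) (Finset.mem_univ j)
  · intro 𝓤 P Q wt x v h hxO hx
    obtain ⟨c, hc, hc0, hcB, hcv⟩ := H539.key hF' hα' hsm h hx
    have hp : Tendsto (fun k => chart i (P k)) 𝓤 (𝓝 (chart i x)) :=
      (continuousAt_chart h.nz).tendsto.comp h.cP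
    have hq : Tendsto (fun k => chart i (Q k)) 𝓤 (𝓝 (chart i x)) :=
      (continuousAt_chart h.nz).tendsto.comp h.cQ
    refine ⟨fun j => fderiv ℂ (u j) (chart i x) v, fun j => ?_, fun q => ?_⟩
    · exact strict_lim ((hu j) _ (hOs hxO).1.2).hasStrictFDerivAt hp hq h.lim
    · have h1 := hform c hc (by rw [hc0]; exact (hOs hxO).1.2) hcB q
      have h2 : ∀ j, deriv (fun s => u j (c s)) 0 = fderiv ℂ (u j) (chart i x) v := by
        intro j
        have h3 : HasFDerivAt (u j) (fderiv ℂ (u j) (chart i x)) (c 0) := by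
          rw [hc0]
          exact ((hu j) _ (hOs hxO).1.2).differentiableAt.hasFDerivAt
        exact (h3.comp_hasDerivAt (0 : ℂ) hcv).deriv
      rw [hcv.deriv, hc0] at h1
      simp only [h2] at h1
      exact h1

end Pool.Agent.H918.SS
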